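import Pool.Agent.Helper94.FU.J

set_option autoImplicit false

open MeasureTheory Set Real Filter Topology intervalIntegral

namespace Pool.Agent.Helper94.FU

/-- Taylor formula with integral remainder. -/
theorem jj_taylor {g : ℝ} (hg : 0 < g) (c x : ℝ) :
    jj g (c - x) = jj g c + x * pp g c + x ^ 2 * ∫ s in (0 : ℝ)..1, (1 - s) * ww g (c - s * x) := by
  rcases eq_or_ne x 0 with rfl | hx
  · simp
  have hcont : Continuous (fun s : ℝ => pp g (c - s * x)) :=
    (pp_continuous g).comp (continuous_const.sub (continuous_id.mul continuous_const))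
  have hww : IntervalIntegrable (fun s : ℝ => ww g (c - s * x)) volume 0 1 := by
    have h1 := ((ww_intervalIntegrable hg (c - 0) (c - x)).comp_sub_left c).comp_mul_right (c := x)
    simpa [hx] using h1
  have hi1 : IntervalIntegrable (fun s : ℝ => -pp g (c - s * x)) volume 0 1 :=
    hcont.neg.intervalIntegrable _ _
  have hi2 : IntervalIntegrable (fun s : ℝ => (1 - s) * (x * ww g (c - s * x))) volume 0 1 :=
    IntervalIntegrable.continuousOn_mul (hww.const_mul x) (by fun_prop)
  have hint : IntervalIntegrable (fun s : ℝ => -pp g (c - s * x) + (1 - s) * (x * ww g (c - s * x)))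
      volume 0 1 := by
    exact hi1.add hi2
  have hder := MeasureTheory.integral_eq_of_hasDerivAt_off_countable
    (fun s : ℝ => (1 - s) * pp g (c - s * x))
    (fun s : ℝ => -pp g (c - s * x) + (1 - s) * (x * ww g (c - s * x))) (a := 0) (b := 1)
    (s := {(c - g) / x, (c + g) / x}) (Set.Countable.insert _ (Set.countable_singleton _))
    (((continuous_const.sub continuous_id).mul hcont).continuousOn)
    (fun s hs => by
      have hs2 := hs.2
      simp only [mem_insert_iff, mem_singleton_iff, not_or] at hs2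
      have h1 : c - s * x ≠ g := fun h => hs2.1 (by field_simp; linarith)
      have h2 : c - s * x ≠ -g := fun h => hs2.2 (by field_simp; linarith)
      have h3 : HasDerivAt (fun s : ℝ => c - s * x) (-x) s := by
        have := ((hasDerivAt_id s).mul_const x).const_sub c
        simpa using this
      have h4 := (hasDerivAt_pp hg h1 h2).comp s h3
      have h5 := (((hasDerivAt_id s).const_sub 1).mul h4)
      refine h5.congr_deriv ?_
      simp only [Function.comp_apply, id]
      ring) hint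
  rw [intervalIntegral.integral_add hi1 hi2, intervalIntegral.integral_neg] at hder
  have e1 : ∫ s in (0 : ℝ)..1, (1 - s) * (x * ww g (c - s * x)) =
      x * ∫ s in (0 : ℝ)..1, (1 - s) * ww g (c - s * x) := by
    rw [← intervalIntegral.integral_const_mul]
    congr 1
    funext s
    ring
  have e2 : x * ∫ s in (0 : ℝ)..1, pp g (c - s * x) = jj g (c - x) - jj g c := by
    have h1 := intervalIntegral.mul_integral_comp_sub_mul (f := pp g) (a := 0) (b := 1) x c
    simp only [mul_one, mul_zero, sub_zero] at h1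
    rw [integral_pp hg] at h1
    rw [← h1]
    congr 2
    funext s
    rw [mul_comm]
  rw [e1] at hder
  simp only [sub_self, zero_mul, sub_zero, one_mul, zero_mul] at hder
  have e3 : x ^ 2 * ∫ s in (0 : ℝ)..1, (1 - s) * ww g (c - s * x) =
      x * (x * ∫ s in (0 : ℝ)..1, (1 - s) * ww g (c - s * x)) := by ring
  rw [e3]
  have e4 : x * ∫ s in (0 : ℝ)..1, (1 - s) * ww g (c - s * x) =
      (∫ s in (0 : ℝ)..1, pp g (c - s * x)) - pp g c := by linarith
  rw [e4]
  linarith

open scoped RealInnerProductSpace ENNReal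

/-- `E(G cos φ - c)₊` integrated over the body: the function `H(v, 1)` with the level `τ`. -/
noncomputable def JJ {n : ℕ} (K : Set (EuclideanSpace ℝ (Fin n))) (F : EuclideanSpace ℝ (Fin n) → ℝ)
    (v : EuclideanSpace ℝ (Fin n)) (τ : ℝ) : ℝ :=
  ∫ y in K, jj (√(F y)) (τ - inner ℝ v y)

/-- `W = F - (τ - <v,y>)²`. -/
noncomputable def Wt {n : ℕ} (F : EuclideanSpace ℝ (Fin n) → ℝ) (v : EuclideanSpace ℝ (Fin n))
    (τ : ℝ) (y : EuclideanSpace ℝ (Fin n)) : ℝ := F y - (τ - inner ℝ v y) ^ 2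

/-- The quadratic form `(1 + v ⊗ v)⁻¹`. -/
noncomputable def qv {n : ℕ} (v a : EuclideanSpace ℝ (Fin n)) : ℝ :=
  ‖a‖ ^ 2 - (inner ℝ v a) ^ 2 / (1 + ‖v‖ ^ 2)

/-- The dimensional Brascamp-Lieb inequality, as a property of `K` and `F`. -/
def BLa {n : ℕ} (K : Set (EuclideanSpace ℝ (Fin n))) (F : EuclideanSpace ℝ (Fin n) → ℝ) : Prop :=
  ∀ (v a : EuclideanSpace ℝ (Fin n)) (τ c : ℝ),
    IntegrableOn (fun y => (√(Wt F v τ y))⁻¹ * (inner ℝ a y - c) ^ 2) K ∧
      (∫ y in K, (√(Wt F v τ y))⁻¹ * (inner ℝ a y - c) ^ 2) * (∫ y in K, √(Wt F v τ y) ^ 3) ≤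
        qv v a * (∫ y in K, √(Wt F v τ y)) * (∫ y in K, √(Wt F v τ y) ^ 3) +
          3 * (∫ y in K, √(Wt F v τ y) * (inner ℝ a y - c)) ^ 2

/-- Continuous and bounded in the interior. -/
structure BC {n : ℕ} (K : Set (EuclideanSpace ℝ (Fin n)))
    (u : EuclideanSpace ℝ (Fin n) → ℝ) : Prop where
  c : ContinuousOn u (interior K)
  b : ∃ C : ℝ, ∀ y ∈ interior K, |u y| ≤ C

/-- Data: the body and the function. -/
structure FDat {n : ℕ} (K : Set (EuclideanSpace ℝ (Fin n)))
    (F : EuclideanSpace ℝ (Fin n) → ℝ) : Prop where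
  Kc : IsCompact K
  Kconv : Convex ℝ K
  Fc : BC K F
  Fpos : ∀ y ∈ interior K, 0 < F y

section

variable {n : ℕ} {K : Set (EuclideanSpace ℝ (Fin n))} {F : EuclideanSpace ℝ (Fin n) → ℝ}

theorem BC.comp2 {φ : ℝ × ℝ → ℝ} (hφ : Continuous φ) {u1 u2 : EuclideanSpace ℝ (Fin n) → ℝ}
    (h1 : BC K u1) (h2 : BC K u2) : BC K (fun y => φ (u1 y, u2 y)) := by
  refine ⟨hφ.comp_continuousOn (h1.c.prodMk h2.c), ?_⟩
  obtain ⟨C1, hC1⟩ := h1.b
  obtain ⟨C2, hC2⟩ := h2.b
  obtain ⟨B, hB⟩ := ((isCompact_Icc (a := -C1) (b := C1)).prod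
    (isCompact_Icc (a := -C2) (b := C2))).exists_bound_of_continuousOn hφ.continuousOn
  refine ⟨B, fun y hy => hB (u1 y, u2 y) ⟨?_, ?_⟩⟩
  · exact abs_le.1 (hC1 y hy)
  · exact abs_le.1 (hC2 y hy)

theorem BC.comp {φ : ℝ → ℝ} (hφ : Continuous φ) {u : EuclideanSpace ℝ (Fin n) → ℝ}
    (h : BC K u) : BC K (fun y => φ (u y)) :=
  BC.comp2 (φ := fun p => φ p.1) (hφ.comp continuous_fst) h h

theorem BC.mul {u1 u2 : EuclideanSpace ℝ (Fin n) → ℝ} (h1 : BC K u1) (h2 : BC K u2) :
    BC K (fun y => u1 y * u2 y) := BC.comp2 (φ := fun p => p.1 * p.2) (by fun_prop) h1 h2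

theorem BC.sub {u1 u2 : EuclideanSpace ℝ (Fin n) → ℝ} (h1 : BC K u1) (h2 : BC K u2) :
    BC K (fun y => u1 y - u2 y) := BC.comp2 (φ := fun p => p.1 - p.2) (by fun_prop) h1 h2

theorem BC.of {u : EuclideanSpace ℝ (Fin n) → ℝ} (hK : IsCompact K) (hu : Continuous u) :
    BC K u := by
  refine ⟨hu.continuousOn, ?_⟩
  obtain ⟨B, hB⟩ := hK.exists_bound_of_continuousOn hu.continuousOn
  exact ⟨B, fun y hy => hB y (interior_subset hy)⟩

theorem FDat.ae_int (h : FDat K F) : ∀ᵐ y ∂(volume.restrict K), y ∈ interior K := by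
  have h1 : volume (frontier K) = 0 := h.Kconv.addHaar_frontier volume
  have h2 : ∀ᵐ y ∂(volume : Measure (EuclideanSpace ℝ (Fin n))), y ∉ frontier K :=
    measure_eq_zero_iff_ae_notMem.1 h1
  rw [ae_restrict_iff' h.Kc.measurableSet]
  filter_upwards [h2] with y hy hyK
  by_contra hcon
  exact hy ⟨subset_closure hyK, hcon⟩

theorem FDat.ae_pos (h : FDat K F) : ∀ᵐ y ∂(volume.restrict K), 0 < F y := by
  filter_upwards [h.ae_int] with y hy using h.Fpos y hy

theorem FDat.restr (h : FDat K F) : volume.restrict (interior K) = volume.restrict K := by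
  apply Measure.restrict_congr_set
  refine (ae_eq_set.2 ⟨?_, ?_⟩)
  · rw [diff_eq_empty.2 interior_subset]
    simp
  · have h1 : volume (frontier K) = 0 := h.Kconv.addHaar_frontier volume
    refine measure_mono_null ?_ h1
    intro y hy
    exact ⟨subset_closure hy.1, hy.2⟩

theorem FDat.meas (h : FDat K F) {u : EuclideanSpace ℝ (Fin n) → ℝ}
    (hu : ContinuousOn u (interior K)) : AEStronglyMeasurable u (volume.restrict K) := by
  rw [← h.restr]
  exact hu.aestronglyMeasurable isOpen_interior.measurableSet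

theorem FDat.int (h : FDat K F) {u : EuclideanSpace ℝ (Fin n) → ℝ} (hu : BC K u) :
    IntegrableOn u K := by
  obtain ⟨C, hC⟩ := hu.b
  have hfin : IsFiniteMeasure (volume.restrict K) :=
    ⟨by rw [Measure.restrict_apply_univ]; exact h.Kc.measure_lt_top⟩
  refine Integrable.of_bound (h.meas hu.c) C ?_
  filter_upwards [h.ae_int] with y hy using hC y hy

theorem FDat.contJ (h : FDat K F) (v : EuclideanSpace ℝ (Fin n)) (τ : ℝ) :
    BC K (fun y => jj (√(F y)) (τ - inner ℝ v y)) :=
  BC.comp2 (φ := fun p => jj (√p.1) p.2)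
    (jj_continuous.comp ((continuous_sqrt.comp continuous_fst).prodMk continuous_snd)) h.Fc
    (BC.of h.Kc (by fun_prop))

theorem FDat.contW (h : FDat K F) (v : EuclideanSpace ℝ (Fin n)) (τ : ℝ) :
    BC K (Wt F v τ) := by
  unfold Wt
  exact h.Fc.sub (BC.of h.Kc (by fun_prop))

theorem FDat.measpp (h : FDat K F) (v : EuclideanSpace ℝ (Fin n)) (τ : ℝ) :
    AEStronglyMeasurable (fun y => pp (√(F y)) (τ - inner ℝ v y)) (volume.restrict K) := by
  unfold pp
  apply AEStronglyMeasurable.const_mul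
  apply continuous_arccos.comp_aestronglyMeasurable
  apply AEMeasurable.aestronglyMeasurable
  apply AEMeasurable.div
  · exact (h.meas (by fun_prop)).aemeasurable
  · exact (h.meas h.Fc.c.sqrt).aemeasurable

theorem lint_taylor {g : ℝ} (hg : 0 < g) (c x : ℝ) :
    ENNReal.ofReal (jj g (c - x) - jj g c - x * pp g c) =
      ∫⁻ s in Ioc (0 : ℝ) 1, ENNReal.ofReal (x ^ 2 * ((1 - s) * ww g (c - s * x))) := by
  have hww : IntervalIntegrable (fun s : ℝ => ww g (c - s * x)) volume 0 1 := by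
    rcases eq_or_ne x 0 with rfl | hx
    · simp
    have h1 := ((ww_intervalIntegrable hg (c - 0) (c - x)).comp_sub_left c).comp_mul_right (c := x)
    simpa [hx] using h1
  have hi : IntervalIntegrable (fun s : ℝ => x ^ 2 * ((1 - s) * ww g (c - s * x))) volume 0 1 :=
    (IntervalIntegrable.continuousOn_mul hww (by fun_prop)).const_mul _
  rw [← ofReal_integral_eq_lintegral_ofReal]
  · rw [← intervalIntegral.integral_of_le zero_le_one, intervalIntegral.integral_const_mul]
    congr 1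
    rw [jj_taylor hg]
    ring
  · exact (intervalIntegrable_iff_integrableOn_Ioc_of_le zero_le_one).1 hi
  · filter_upwards [ae_restrict_mem measurableSet_Ioc] with s hs
    have h1 := ww_nonneg g (c - s * x)
    have h2 : 0 ≤ 1 - s := by linarith [hs.2]
    simp only [Pi.zero_apply]
    positivity

theorem FDat.intpp (h : FDat K F) (v : EuclideanSpace ℝ (Fin n)) (τ : ℝ)
    {u : EuclideanSpace ℝ (Fin n) → ℝ} (hu : BC K u) :
    IntegrableOn (fun y => u y * pp (√(F y)) (τ - inner ℝ v y)) K := by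
  have h1 := h.int hu
  refine Integrable.mul_bdd (c := 1) h1 (h.measpp v τ) ?_
  filter_upwards with y
  rw [Real.norm_eq_abs, abs_of_nonneg (pp_nonneg _ _)]
  exact pp_le_one _ _

/-- The remainder of the Taylor formula, integrated over the body. -/
theorem FDat.rem (h : FDat K F) (v a : EuclideanSpace ℝ (Fin n)) (τ γ x D : ℝ) (hD : 0 ≤ D)
    (hint : ∀ r, IntegrableOn (fun y => (√(Wt F (v + r • a) (τ + r * γ) y))⁻¹ *
      (inner ℝ a y - γ) ^ 2) K)
    (hb : ∀ s ∈ Icc (0 : ℝ) 1, π⁻¹ * ∫ y in K, (√(Wt F (v + (s * x) • a) (τ + (s * x) * γ) y))⁻¹ *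
      (inner ℝ a y - γ) ^ 2 ≤ D) :
    ∫ y in K, (jj (√(F y)) ((τ + x * γ) - inner ℝ (v + x • a) y) - jj (√(F y)) (τ - inner ℝ v y) -
      (x * (inner ℝ a y - γ)) * pp (√(F y)) (τ - inner ℝ v y)) ≤ x ^ 2 / 2 * D := by
  have hpi := pi_pos
  have e0 : ∀ y : EuclideanSpace ℝ (Fin n), ∀ s : ℝ,
      (τ + s * γ) - inner ℝ (v + s • a) y = (τ - inner ℝ v y) - s * (inner ℝ a y - γ) := by
    intro y s
    rw [inner_add_left, inner_smul_left]
    simp only [conj_trivial]
    ring
  -- nonnegative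
  have hnn : ∀ᵐ y ∂(volume.restrict K), 0 ≤ jj (√(F y)) ((τ + x * γ) - inner ℝ (v + x • a) y) -
      jj (√(F y)) (τ - inner ℝ v y) -
      (x * (inner ℝ a y - γ)) * pp (√(F y)) (τ - inner ℝ v y) := by
    filter_upwards [h.ae_pos] with y hy
    rw [e0, jj_taylor (sqrt_pos.2 hy)]
    have : 0 ≤ ∫ s in (0 : ℝ)..1, (1 - s) * ww (√(F y)) (τ - inner ℝ v y - s * (x * (inner ℝ a y - γ))) := by
      apply intervalIntegral.integral_nonneg zero_le_one
      intro s hs
      have h2 : 0 ≤ 1 - s := by linarith [hs.2]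
      exact mul_nonneg h2 (ww_nonneg _ _)
    have h3 := mul_nonneg (sq_nonneg (x * (inner ℝ a y - γ))) this
    linarith
  have hmeas : AEStronglyMeasurable (fun y => jj (√(F y)) ((τ + x * γ) - inner ℝ (v + x • a) y) -
      jj (√(F y)) (τ - inner ℝ v y) -
      (x * (inner ℝ a y - γ)) * pp (√(F y)) (τ - inner ℝ v y)) (volume.restrict K) := by
    apply AEStronglyMeasurable.sub
    · exact h.meas ((h.contJ _ _).sub (h.contJ _ _)).c
    · exact (h.intpp v τ (BC.of h.Kc (by fun_prop))).aestronglyMeasurable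
  rw [integral_eq_lintegral_of_nonneg_ae hnn hmeas]
  apply ENNReal.toReal_le_of_le_ofReal (by positivity)
  -- measurable version of F
  have hFm : AEMeasurable F (volume.restrict K) := (h.meas h.Fc.c).aemeasurable
  calc ∫⁻ y in K, ENNReal.ofReal (jj (√(F y)) ((τ + x * γ) - inner ℝ (v + x • a) y) -
        jj (√(F y)) (τ - inner ℝ v y) -
        (x * (inner ℝ a y - γ)) * pp (√(F y)) (τ - inner ℝ v y))
      = ∫⁻ y in K, ∫⁻ s in Ioc (0 : ℝ) 1, ENNReal.ofReal ((x * (inner ℝ a y - γ)) ^ 2 *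
          ((1 - s) * ww (√(F y)) ((τ - inner ℝ v y) - s * (x * (inner ℝ a y - γ))))) := by
        apply lintegral_congr_ae
        filter_upwards [h.ae_pos] with y hy
        rw [e0, lint_taylor (sqrt_pos.2 hy)]
    _ = ∫⁻ s in Ioc (0 : ℝ) 1, ∫⁻ y in K, ENNReal.ofReal ((x * (inner ℝ a y - γ)) ^ 2 *
          ((1 - s) * ww (√(F y)) ((τ - inner ℝ v y) - s * (x * (inner ℝ a y - γ))))) := by
        apply lintegral_lintegral_swap
        apply AEMeasurable.ennreal_ofReal
        have hF1 : AEMeasurable (fun z : EuclideanSpace ℝ (Fin n) × ℝ => F z.1)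
            ((volume.restrict K).prod (volume.restrict (Ioc (0 : ℝ) 1))) := hFm.comp_fst
        have hm1 : Measurable (fun z : EuclideanSpace ℝ (Fin n) × ℝ => (x * (inner ℝ a z.1 - γ)) ^ 2) := by
          fun_prop
        have hm2 : Measurable (fun z : EuclideanSpace ℝ (Fin n) × ℝ => 1 - z.2) := by fun_prop
        have hm3 : Measurable (fun z : EuclideanSpace ℝ (Fin n) × ℝ =>
          ((τ - inner ℝ v z.1) - z.2 * (x * (inner ℝ a z.1 - γ))) ^ 2) := by fun_prop
        unfold ww
        exact hm1.aemeasurable.mul (hm2.aemeasurable.mul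
          (((continuous_sqrt.measurable.comp_aemeasurable
            (((continuous_sqrt.measurable.comp_aemeasurable hF1).pow_const 2).sub hm3.aemeasurable)).inv).const_mul π⁻¹))
    _ ≤ ∫⁻ s in Ioc (0 : ℝ) 1, ENNReal.ofReal (x ^ 2 * (1 - s) * D) := by
        apply lintegral_mono_ae
        filter_upwards [ae_restrict_mem measurableSet_Ioc] with s hs
        have h2 : 0 ≤ 1 - s := by linarith [hs.2]
        have e1 : ∀ᵐ y ∂(volume.restrict K), ENNReal.ofReal ((x * (inner ℝ a y - γ)) ^ 2 *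
            ((1 - s) * ww (√(F y)) ((τ - inner ℝ v y) - s * (x * (inner ℝ a y - γ))))) =
            ENNReal.ofReal ((x ^ 2 * (1 - s) * π⁻¹) *
              ((√(Wt F (v + (s * x) • a) (τ + (s * x) * γ) y))⁻¹ * (inner ℝ a y - γ) ^ 2)) := by
          filter_upwards [h.ae_pos] with y hy
          congr 1
          unfold ww Wt
          rw [e0, sq_sqrt hy.le]
          have : s * (x * (inner ℝ a y - γ)) = s * x * (inner ℝ a y - γ) := by ring
          rw [this]
          ring
        rw [lintegral_congr_ae e1, ← ofReal_integral_eq_lintegral_ofReal]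
        · apply ENNReal.ofReal_le_ofReal
          rw [MeasureTheory.integral_const_mul]
          have := hb s ⟨hs.1.le, hs.2⟩
          have h3 : 0 ≤ x ^ 2 * (1 - s) := by positivity
          calc x ^ 2 * (1 - s) * π⁻¹ * ∫ y in K, (√(Wt F (v + (s * x) • a) (τ + (s * x) * γ) y))⁻¹ *
                (inner ℝ a y - γ) ^ 2 = x ^ 2 * (1 - s) * (π⁻¹ * ∫ y in K,
                  (√(Wt F (v + (s * x) • a) (τ + (s * x) * γ) y))⁻¹ * (inner ℝ a y - γ) ^ 2) := by ring
            _ ≤ x ^ 2 * (1 - s) * D := by gcongr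
        · exact (hint (s * x)).const_mul _
        · filter_upwards with y
          have := sqrt_nonneg (Wt F (v + (s * x) • a) (τ + (s * x) * γ) y)
          simp only [Pi.zero_apply]
          positivity
    _ = ENNReal.ofReal (x ^ 2 / 2 * D) := by
        have hi : IntervalIntegrable (fun s : ℝ => x ^ 2 * (1 - s) * D) volume 0 1 :=
          Continuous.intervalIntegrable (by fun_prop) _ _
        rw [← ofReal_integral_eq_lintegral_ofReal]
        · rw [← intervalIntegral.integral_of_le zero_le_one]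
          congr 1
          have : ∀ s : ℝ, x ^ 2 * (1 - s) * D = (x ^ 2 * D) * (1 - s) := fun s => by ring
          simp only [this, intervalIntegral.integral_const_mul]
          rw [intervalIntegral.integral_sub (by simp) (by simp)]
          simp
          ring
        · exact (intervalIntegrable_iff_integrableOn_Ioc_of_le zero_le_one).1 hi
        · filter_upwards [ae_restrict_mem measurableSet_Ioc] with s hs
          have h2 : 0 ≤ 1 - s := by linarith [hs.2]
          simp only [Pi.zero_apply]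
          positivity

theorem FDat.bounded (h : FDat K F) : ∃ R : ℝ, 0 < R ∧ (∀ y ∈ K, ‖y‖ ≤ R) ∧
    ∀ y ∈ interior K, |F y| ≤ R := by
  obtain ⟨R1, hR1⟩ := h.Kc.isBounded.exists_norm_le
  obtain ⟨R2, hR2⟩ := h.Fc.b
  refine ⟨max (max R1 R2) 1, by positivity, fun y hy => (hR1 y hy).trans ((le_max_left _ _).trans
    (le_max_left _ _)), fun y hy => ?_⟩
  exact (hR2 y hy).trans ((le_max_right _ _).trans (le_max_left _ _))

/-- Continuity of integrals of continuous functions of `W` along a line. -/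
theorem FDat.contInt (h : FDat K F) (v a : EuclideanSpace ℝ (Fin n)) (τ γ : ℝ) {φ : ℝ → ℝ}
    (hφ : Continuous φ) {u : EuclideanSpace ℝ (Fin n) → ℝ} (hu : Continuous u) :
    ContinuousAt (fun r : ℝ => ∫ y in K, φ (Wt F (v + r • a) (τ + r * γ) y) * u y) 0 := by
  obtain ⟨R, hR, hR1, hR2⟩ := h.bounded
  -- on K and for |r| ≤ 1 the values of W stay in a compact interval
  set M : ℝ := R + ((|τ| + |γ|) + (‖v‖ + ‖a‖) * R) ^ 2 with hM
  have hW : ∀ r ∈ Metric.ball (0 : ℝ) 1, ∀ y ∈ interior K,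
      Wt F (v + r • a) (τ + r * γ) y ∈ Icc (-M) M := by
    intro r hr y hy'
    have hy := interior_subset hy'
    rw [Metric.mem_ball, dist_zero_right, Real.norm_eq_abs] at hr
    have h1 : |(τ + r * γ) - inner ℝ (v + r • a) y| ≤ (|τ| + |γ|) + (‖v‖ + ‖a‖) * R := by
      have e1 : |τ + r * γ| ≤ |τ| + |γ| := by
        refine (abs_add_le _ _).trans ?_
        rw [abs_mul]
        nlinarith [abs_nonneg γ, abs_nonneg r]
      have e2 : |(inner ℝ (v + r • a) y : ℝ)| ≤ (‖v‖ + ‖a‖) * R := by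
        refine (abs_real_inner_le_norm _ _).trans ?_
        have e3 : ‖v + r • a‖ ≤ ‖v‖ + ‖a‖ := by
          refine (norm_add_le _ _).trans ?_
          rw [norm_smul, Real.norm_eq_abs]
          nlinarith [norm_nonneg a, abs_nonneg r]
        exact mul_le_mul e3 (hR1 y hy) (norm_nonneg _) (by positivity)
      calc |(τ + r * γ) - inner ℝ (v + r • a) y| ≤ |τ + r * γ| + |(inner ℝ (v + r • a) y : ℝ)| :=
            abs_sub _ _
        _ ≤ _ := add_le_add e1 e2
    have h2 : ((τ + r * γ) - inner ℝ (v + r • a) y) ^ 2 ≤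
        ((|τ| + |γ|) + (‖v‖ + ‖a‖) * R) ^ 2 := by
      rw [← sq_abs]
      exact pow_le_pow_left₀ (abs_nonneg _) h1 2
    have h3 := abs_le.1 (hR2 y hy')
    unfold Wt
    have h4 := sq_nonneg ((τ + r * γ) - inner ℝ (v + r • a) y)
    constructor <;> linarith [h3.1, h3.2]
  obtain ⟨B, hB⟩ := (isCompact_Icc (a := -M) (b := M)).exists_bound_of_continuousOn hφ.continuousOn
  obtain ⟨U, hU⟩ := h.Kc.exists_bound_of_continuousOn hu.continuousOn
  have hfin : IsFiniteMeasure (volume.restrict K) :=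
    ⟨by rw [Measure.restrict_apply_univ]; exact h.Kc.measure_lt_top⟩
  apply continuousAt_of_dominated (bound := fun _ => |B| * |U|)
  · filter_upwards with r
    exact h.meas (((hφ.comp_continuousOn (h.contW _ _).c)).mul hu.continuousOn)
  · filter_upwards [Metric.ball_mem_nhds (0 : ℝ) one_pos] with r hr
    filter_upwards [h.ae_int] with y hy
    rw [norm_mul]
    exact mul_le_mul ((hB _ (hW r hr y hy)).trans (le_abs_self _))
      ((hU y (interior_subset hy)).trans (le_abs_self _))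
      (norm_nonneg _) (abs_nonneg _)
  · exact integrable_const _
  · filter_upwards with y
    apply ContinuousAt.mul _ continuousAt_const
    apply hφ.continuousAt.comp
    unfold Wt
    fun_prop

theorem qv_nonneg (v a : EuclideanSpace ℝ (Fin n)) : 0 ≤ qv v a := by
  unfold qv
  have h1 : (inner ℝ v a : ℝ) ^ 2 ≤ ‖v‖ ^ 2 * ‖a‖ ^ 2 := by
    rw [← sq_abs, ← mul_pow]
    exact pow_le_pow_left₀ (abs_nonneg _) (abs_real_inner_le_norm v a) 2
  have h2 : (inner ℝ v a : ℝ) ^ 2 / (1 + ‖v‖ ^ 2) ≤ ‖a‖ ^ 2 := by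
    rw [div_le_iff₀ (by positivity)]
    nlinarith [sq_nonneg ‖a‖]
  linarith

/-- Upper Taylor bound for the support function of the lifted body. -/
theorem FDat.TU (h : FDat K F) (hBL : BLa K F) {δ : ℝ} {k : EuclideanSpace ℝ (Fin n) → ℝ}
    (hk : ∀ v t, k v ≤ JJ K F v t + δ * t)
    (v a : EuclideanSpace ℝ (Fin n)) (τ : ℝ)
    (hτ : ∫ y in K, pp (√(F y)) (τ - inner ℝ v y) = δ)
    (hW : 0 < ∫ y in K, √(Wt F v τ y)) {ε : ℝ} (hε : 0 < ε) :
    ∃ η : ℝ, 0 < η ∧ ∀ x : ℝ, |x| < η → k (v + x • a) ≤ (JJ K F v τ + δ * τ) +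
      x * (∫ y in K, inner ℝ a y * pp (√(F y)) (τ - inner ℝ v y)) +
      x ^ 2 / 2 * (π⁻¹ * (∫ y in K, √(Wt F v τ y)) * qv v a + ε) := by
  have hpi := pi_pos
  -- the centre
  set γ : ℝ := (∫ y in K, √(Wt F v τ y) * inner ℝ a y) / ∫ y in K, √(Wt F v τ y) with hγ
  have hc1 := h.contInt v a τ γ (φ := fun w => √w) continuous_sqrt (u := fun _ => 1)
    continuous_const
  have hc3 := h.contInt v a τ γ (φ := fun w => √w ^ 3) (continuous_sqrt.pow 3) (u := fun _ => 1)
    continuous_const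
  have hcM := h.contInt v a τ γ (φ := fun w => √w) continuous_sqrt
    (u := fun y => inner ℝ a y - γ) (by fun_prop)
  simp only [mul_one] at hc1 hc3
  have hM0 : ∫ y in K, √(Wt F (v + (0 : ℝ) • a) (τ + 0 * γ) y) * (inner ℝ a y - γ) = 0 := by
    simp only [zero_smul, add_zero, zero_mul]
    have e : ∀ y, √(Wt F v τ y) * (inner ℝ a y - γ) =
        √(Wt F v τ y) * inner ℝ a y - √(Wt F v τ y) * γ := fun y => by ring
    simp only [e]
    have hsq : BC K (fun y => √(Wt F v τ y)) := (h.contW v τ).comp continuous_sqrt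
    have j1 : IntegrableOn (fun y => √(Wt F v τ y) * inner ℝ a y) K :=
      h.int (hsq.mul (BC.of h.Kc (by fun_prop)))
    have j2 : IntegrableOn (fun y => √(Wt F v τ y) * γ) K :=
      h.int (hsq.mul (BC.of h.Kc continuous_const))
    rw [integral_sub j1 j2, MeasureTheory.integral_mul_const, hγ]
    field_simp
    ring
  have hN3 : 0 < ∫ y in K, √(Wt F (v + (0 : ℝ) • a) (τ + 0 * γ) y) ^ 3 := by
    simp only [zero_smul, add_zero, zero_mul]
    have hnn : 0 ≤ᵐ[volume.restrict K] fun y => √(Wt F v τ y) ^ 3 := by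
      filter_upwards with y
      have := sqrt_nonneg (Wt F v τ y)
      simp only [Pi.zero_apply]
      positivity
    have hnn1 : 0 ≤ᵐ[volume.restrict K] fun y => √(Wt F v τ y) := by
      filter_upwards with y
      exact sqrt_nonneg _
    have j1 : IntegrableOn (fun y => √(Wt F v τ y) ^ 3) K :=
      h.int ((h.contW v τ).comp (φ := fun w => √w ^ 3) (continuous_sqrt.pow 3))
    have j2 : IntegrableOn (fun y => √(Wt F v τ y)) K :=
      h.int ((h.contW v τ).comp (φ := fun w => √w) continuous_sqrt)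
    rw [integral_pos_iff_support_of_nonneg_ae hnn j1]
    rw [integral_pos_iff_support_of_nonneg_ae hnn1 j2] at hW
    have e : Function.support (fun y => √(Wt F v τ y) ^ 3) =
        Function.support (fun y => √(Wt F v τ y)) := by
      ext y
      simp [Function.mem_support]
    rw [e]
    exact hW
  -- the bound for D(r)
  set E : ℝ → ℝ := fun r => qv (v + r • a) a * (∫ y in K, √(Wt F (v + r • a) (τ + r * γ) y)) +
    3 * (∫ y in K, √(Wt F (v + r • a) (τ + r * γ) y) * (inner ℝ a y - γ)) ^ 2 /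
      (∫ y in K, √(Wt F (v + r • a) (τ + r * γ) y) ^ 3) with hE
  have hq : ContinuousAt (fun r : ℝ => qv (v + r • a) a) 0 := by
    unfold qv
    apply ContinuousAt.sub continuousAt_const
    apply ContinuousAt.div (by fun_prop) (by fun_prop)
    positivity
  have hEc : ContinuousAt E 0 := by
    apply ContinuousAt.add (hq.mul hc1)
    exact ContinuousAt.div ((continuousAt_const.mul (hcM.pow 2))) hc3 hN3.ne'
  have hE0 : E 0 = qv v a * ∫ y in K, √(Wt F v τ y) := by
    simp only [hE, hM0]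
    simp
  have hev : ∀ᶠ r in 𝓝 (0 : ℝ), E r < E 0 + π * ε ∧
      0 < ∫ y in K, √(Wt F (v + r • a) (τ + r * γ) y) ^ 3 := by
    apply Filter.Eventually.and
    · exact hEc.eventually (gt_mem_nhds (by linarith [mul_pos hpi hε]))
    · exact hc3.eventually (lt_mem_nhds hN3)
  obtain ⟨η, hη, hηb⟩ := Metric.eventually_nhds_iff.1 hev
  refine ⟨η, hη, fun x hx => ?_⟩
  have hD : ∀ s ∈ Icc (0 : ℝ) 1, π⁻¹ * ∫ y in K,
      (√(Wt F (v + (s * x) • a) (τ + (s * x) * γ) y))⁻¹ * (inner ℝ a y - γ) ^ 2 ≤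
        π⁻¹ * (∫ y in K, √(Wt F v τ y)) * qv v a + ε := by
    intro s hs
    have hs' : dist (s * x) 0 < η := by
      rw [dist_zero_right, Real.norm_eq_abs, abs_mul, abs_of_nonneg hs.1]
      nlinarith [hs.2, abs_nonneg x, hs.1]
    obtain ⟨h1, h2⟩ := hηb hs'
    have h3 := (hBL (v + (s * x) • a) a (τ + (s * x) * γ) γ).2
    have h4 : ∫ y in K, (√(Wt F (v + (s * x) • a) (τ + (s * x) * γ) y))⁻¹ *
        (inner ℝ a y - γ) ^ 2 ≤ E (s * x) := by
      simp only [hE]
      rw [← sub_le_iff_le_add', le_div_iff₀ h2]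
      nlinarith
    have h5 : ∫ y in K, (√(Wt F (v + (s * x) • a) (τ + (s * x) * γ) y))⁻¹ *
        (inner ℝ a y - γ) ^ 2 ≤ E 0 + π * ε := h4.trans h1.le
    calc π⁻¹ * ∫ y in K, (√(Wt F (v + (s * x) • a) (τ + (s * x) * γ) y))⁻¹ *
        (inner ℝ a y - γ) ^ 2 ≤ π⁻¹ * (E 0 + π * ε) := by gcongr
      _ = _ := by rw [hE0]; field_simp
  have hDn : 0 ≤ π⁻¹ * (∫ y in K, √(Wt F v τ y)) * qv v a + ε := by
    have := qv_nonneg v a
    positivity
  have hrem := h.rem v a τ γ x _ hDn (fun r => (hBL _ _ _ _).1) hD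
  have i1 : IntegrableOn (fun y => jj (√(F y)) ((τ + x * γ) - inner ℝ (v + x • a) y)) K :=
    h.int (h.contJ _ _)
  have i2 : IntegrableOn (fun y => jj (√(F y)) (τ - inner ℝ v y)) K := h.int (h.contJ _ _)
  have i3 : IntegrableOn (fun y => (x * (inner ℝ a y - γ)) * pp (√(F y)) (τ - inner ℝ v y)) K :=
    h.intpp v τ (BC.of h.Kc (by fun_prop))
  have i12 : IntegrableOn (fun y => jj (√(F y)) ((τ + x * γ) - inner ℝ (v + x • a) y) -
    jj (√(F y)) (τ - inner ℝ v y)) K := i1.sub i2
  rw [integral_sub i12 i3, integral_sub i1 i2] at hrem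
  have e3 : ∫ y in K, (x * (inner ℝ a y - γ)) * pp (√(F y)) (τ - inner ℝ v y) =
      x * (∫ y in K, inner ℝ a y * pp (√(F y)) (τ - inner ℝ v y)) - x * γ * δ := by
    have e : ∀ y, (x * (inner ℝ a y - γ)) * pp (√(F y)) (τ - inner ℝ v y) =
        x * (inner ℝ a y * pp (√(F y)) (τ - inner ℝ v y)) -
          (x * γ) * pp (√(F y)) (τ - inner ℝ v y) := fun y => by ring
    simp only [e]
    rw [integral_sub ((h.intpp v τ (BC.of h.Kc (by fun_prop))).const_mul x)
      (h.intpp v τ (BC.of h.Kc continuous_const)),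
      MeasureTheory.integral_const_mul, MeasureTheory.integral_const_mul, hτ]
  rw [e3] at hrem
  have hle := hk (v + x • a) (τ + x * γ)
  unfold JJ at hle ⊢
  nlinarith

end

end Pool.Agent.Helper94.FU
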