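import Pool.Agent.Helper73.FU.Stmts
import Pool.Agent.Helper94.FU.TU

set_option autoImplicit false

open MeasureTheory Set Metric Real Filter Topology
open scoped RealInnerProductSpace ENNReal
open Pool.Agent.Helper16.Buoy (E)

namespace Pool.Agent.Helper94.FU

theorem jj73 (g c : ℝ) : Pool.Agent.Helper73.FU.jj g c = jj g c := by
  unfold Pool.Agent.Helper73.FU.jj jj
  rw [one_div]

theorem pp73 (g c : ℝ) : Pool.Agent.Helper73.FU.pp g c = pp g c := by
  unfold Pool.Agent.Helper73.FU.pp pp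
  rw [div_eq_inv_mul]

theorem FDat.of {n : ℕ} {K : Set (E n)} {F : E n → ℝ} (hK : Pool.Agent.Helper73.LR.CB K)
    (hF : Pool.Agent.Helper73.FU.AF K F) : FDat K F := by
  refine ⟨hK.comp, hK.conv, ⟨?_, ?_⟩, hF.pos⟩
  · have h1 := hF.conc.continuousOn isOpen_interior
    have h2 : ContinuousOn (fun y : E n => (F y + ‖y‖ ^ 2) - ‖y‖ ^ 2) (interior K) :=
      h1.sub (by fun_prop)
    simpa using h2
  · obtain ⟨C, hC⟩ := hF.bdd
    exact ⟨C, fun y hy => by rw [abs_of_pos (hF.pos y hy)]; exact hC y hy⟩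

theorem BLa.of {n : ℕ} {K : Set (E n)} {F : E n → ℝ} (hbl : Pool.Agent.Helper73.FU.S_bl)
    (hK : Pool.Agent.Helper73.LR.CB K) (hF : Pool.Agent.Helper73.FU.AF K F) : BLa K F := by
  intro v a τ c
  apply hbl hK (W := Wt F v τ) (v := v) (a := a) (γ := c)
  · have h1 : ConcaveOn ℝ (interior K) (fun y => (F y + ‖y‖ ^ 2) +
        (2 * τ * inner ℝ v y - τ ^ 2)) := by
      apply hF.conc.add
      refine ⟨hK.conv.interior, fun x _ y _ a b _ _ hab => ?_⟩
      simp only [smul_eq_mul, inner_add_right, inner_smul_right]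
      have : b = 1 - a := by linarith
      rw [this]
      apply le_of_eq
      ring
    refine h1.congr fun y _ => ?_
    simp only [Wt]
    ring
  · obtain ⟨C, hC⟩ := hF.bdd
    refine ⟨C, fun y hy => ?_⟩
    unfold Wt
    have := hC y hy
    have h2 := sq_nonneg (τ - inner ℝ v y)
    linarith

theorem s_sd (hbl : Pool.Agent.Helper73.FU.S_bl) : Pool.Agent.Helper73.FU.S_sd := by
  intro n K δ lam F τ hcs hF hL v a ε hε
  have hK := hcs.cb
  have h : FDat K F := FDat.of hK hF
  have hBL := BLa.of hbl hK hF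
  have hJ : ∀ v t, Pool.Agent.Helper73.FU.JJ K (fun y => √(F y)) v t = JJ K F v t := by
    intro v t
    unfold Pool.Agent.Helper73.FU.JJ JJ
    simp only [jj73]
  have hk : ∀ v t, Pool.Agent.Helper73.FU.kk K δ F v ≤ JJ K F v t + δ * t := by
    intro v t
    rw [← hJ]
    exact hL.le v t
  have hτ : ∫ y in K, pp (√(F y)) (τ v - inner ℝ v y) = δ := by
    have := hL.lev v
    unfold Pool.Agent.Helper73.FU.rr at this
    simpa only [pp73] using this
  have hW : 0 < ∫ y in K, √(Wt F v (τ v) y) := by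
    have hnn : 0 ≤ᵐ[volume.restrict K] fun y => √(Wt F v (τ v) y) := by
      filter_upwards with y
      exact sqrt_nonneg _
    have j : IntegrableOn (fun y => √(Wt F v (τ v) y)) K :=
      h.int ((h.contW v (τ v)).comp (φ := fun w => √w) continuous_sqrt)
    rw [integral_pos_iff_support_of_nonneg_ae hnn j]
    obtain ⟨y0, hy0, hy0W⟩ := hL.ne v
    have hop : IsOpen (interior K ∩ {y | 0 < Wt F v (τ v) y}) := by
      have := (h.contW v (τ v)).c.isOpen_inter_preimage isOpen_interior (isOpen_Ioi (a := (0 : ℝ)))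
      exact this
    have hne : (interior K ∩ {y | 0 < Wt F v (τ v) y}).Nonempty := ⟨y0, hy0, hy0W⟩
    have hpos := hop.measure_pos volume hne
    rw [← h.restr, Measure.restrict_apply' isOpen_interior.measurableSet]
    refine lt_of_lt_of_le hpos (measure_mono ?_)
    rintro y ⟨hy1, hy2⟩
    refine ⟨?_, hy1⟩
    simp only [Function.mem_support]
    exact (sqrt_pos.2 hy2).ne'
  obtain ⟨η, hη, hb⟩ := h.TU hBL hk v a (τ v) hτ hW hε
  refine ⟨η / 2, by positivity, fun x hx => ?_⟩
  have hx1 : |x| < η := by linarith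
  have h1 := hb x hx1
  have h2 := hb (-x) (by rwa [abs_neg])
  rw [neg_smul, ← sub_eq_add_neg] at h2
  have h3 : Pool.Agent.Helper73.FU.kk K δ F v = JJ K F v (τ v) + δ * τ v := by
    rw [← hJ]
    exact hL.eq v
  have h4 : lam * Pool.Agent.Helper73.FU.xx K lam F τ v * Pool.Agent.Helper73.FU.qq v a =
      π⁻¹ * (∫ y in K, √(Wt F v (τ v) y)) * qv v a := by
    unfold Pool.Agent.Helper73.FU.xx Pool.Agent.Helper73.FU.qq qv
    have e : ∀ y, Pool.Agent.Helper73.FU.Wf F v (τ v) y = Wt F v (τ v) y := fun y => rfl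
    simp only [e]
    have hl := hcs.lpos.ne'
    field_simp
  rw [h4, h3]
  have e : (-x) ^ 2 = x ^ 2 := by ring
  rw [e] at h2
  linarith

end Pool.Agent.Helper94.FU
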