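import Mathlib

set_option autoImplicit false

open MeasureTheory Set Real Filter Topology intervalIntegral

namespace Pool.Agent.Helper94.FU

/-- Expectation of `(g cos φ - c)₊`, `φ` uniform in `[0, π]`. -/
noncomputable def jj (g c : ℝ) : ℝ := π⁻¹ * ∫ φ in (0 : ℝ)..π, max (g * cos φ - c) 0

/-- Probability of `g cos φ > c`. -/
noncomputable def pp (g c : ℝ) : ℝ := π⁻¹ * arccos (c / g)

/-- Density of `g cos φ`. -/
noncomputable def ww (g c : ℝ) : ℝ := π⁻¹ * (√(g ^ 2 - c ^ 2))⁻¹

theorem cont_max (g c : ℝ) : Continuous (fun φ : ℝ => max (g * cos φ - c) 0) := by fun_prop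

theorem jj_nonneg (g c : ℝ) : 0 ≤ jj g c := by
  unfold jj
  apply mul_nonneg (inv_nonneg.2 pi_pos.le)
  apply intervalIntegral.integral_nonneg pi_pos.le
  intro φ _
  exact le_max_right _ _

theorem jj_zero (c : ℝ) : jj 0 c = max (-c) 0 := by
  unfold jj
  simp only [zero_mul, zero_sub, intervalIntegral.integral_const, sub_zero, smul_eq_mul]
  field_simp

theorem jj_smul {s : ℝ} (hs : 0 ≤ s) (g c : ℝ) : jj (s * g) (s * c) = s * jj g c := by
  unfold jj
  have e : ∀ φ : ℝ, max (s * g * cos φ - s * c) 0 = s * max (g * cos φ - c) 0 := by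
    intro φ
    rw [mul_max_of_nonneg _ _ hs, mul_zero]
    congr 1
    ring
  simp only [e, intervalIntegral.integral_const_mul]
  ring

theorem jj_lip (g g' c c' : ℝ) : |jj g c - jj g' c'| ≤ |g - g'| + |c - c'| := by
  unfold jj
  rw [← mul_sub, ← intervalIntegral.integral_sub ((cont_max g c).intervalIntegrable _ _)
    ((cont_max g' c').intervalIntegrable _ _), abs_mul, abs_of_pos (inv_pos.2 pi_pos)]
  have h1 : |∫ φ in (0 : ℝ)..π, (max (g * cos φ - c) 0 - max (g' * cos φ - c') 0)| ≤
      (|g - g'| + |c - c'|) * |π - 0| := by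
    rw [← Real.norm_eq_abs (∫ φ in (0 : ℝ)..π, _)]
    apply intervalIntegral.norm_integral_le_of_norm_le_const
    intro φ _
    rw [Real.norm_eq_abs]
    refine (abs_max_sub_max_le_abs _ _ _).trans ?_
    have e : g * cos φ - c - (g' * cos φ - c') = (g - g') * cos φ + -(c - c') := by ring
    rw [e]
    refine (abs_add_le _ _).trans ?_
    rw [abs_mul, abs_neg]
    have := abs_cos_le_one φ
    nlinarith [abs_nonneg (g - g')]
  rw [sub_zero, abs_of_pos pi_pos] at h1
  calc π⁻¹ * |∫ φ in (0 : ℝ)..π, (max (g * cos φ - c) 0 - max (g' * cos φ - c') 0)|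
      ≤ π⁻¹ * ((|g - g'| + |c - c'|) * π) := by gcongr
    _ = |g - g'| + |c - c'| := by field_simp

theorem jj_continuous : Continuous (fun p : ℝ × ℝ => jj p.1 p.2) := by
  rw [Metric.continuous_iff]
  intro p ε hε
  refine ⟨ε / 2, by positivity, fun q hq => ?_⟩
  rw [Prod.dist_eq, max_lt_iff, Real.dist_eq, Real.dist_eq] at hq
  rw [Real.dist_eq]
  have := jj_lip q.1 p.1 q.2 p.2
  linarith [hq.1, hq.2]

/-- Symmetry `φ ↦ π - φ`. -/
theorem jj_neg (g c : ℝ) : jj (-g) c = jj g c := by
  unfold jj
  congr 1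
  have h := intervalIntegral.integral_comp_sub_left (fun φ => max (g * cos φ - c) 0) (a := 0)
    (b := π) π
  simp only [sub_zero, sub_self] at h
  rw [← h]
  congr 1
  funext φ
  rw [cos_pi_sub]
  congr 2
  ring

theorem jj_convex_g (c : ℝ) (g g' s : ℝ) (hs0 : 0 ≤ s) (hs1 : s ≤ 1) :
    jj (s * g + (1 - s) * g') c ≤ s * jj g c + (1 - s) * jj g' c := by
  unfold jj
  have h : ∫ φ in (0 : ℝ)..π, max ((s * g + (1 - s) * g') * cos φ - c) 0 ≤
      ∫ φ in (0 : ℝ)..π, (s * max (g * cos φ - c) 0 + (1 - s) * max (g' * cos φ - c) 0) := by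
    apply intervalIntegral.integral_mono_on pi_pos.le ((cont_max _ c).intervalIntegrable _ _)
    · apply Continuous.intervalIntegrable
      fun_prop
    · intro φ _
      apply max_le
      · have h1 := le_max_left (g * cos φ - c) 0
        have h2 := le_max_left (g' * cos φ - c) 0
        nlinarith
      · have h1 := le_max_right (g * cos φ - c) 0
        have h2 := le_max_right (g' * cos φ - c) 0
        have : 0 ≤ 1 - s := by linarith
        positivity
  have hi : ∀ (r a b : ℝ), IntervalIntegrable (fun φ => r * max (a * cos φ - b) 0) volume 0 π :=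
    fun r a b => (continuous_const.mul (cont_max a b)).intervalIntegrable _ _
  rw [intervalIntegral.integral_add (hi s g c) (hi (1 - s) g' c),
    intervalIntegral.integral_const_mul, intervalIntegral.integral_const_mul] at h
  have hp := inv_pos.2 pi_pos
  calc π⁻¹ * ∫ φ in (0 : ℝ)..π, max ((s * g + (1 - s) * g') * cos φ - c) 0 ≤ π⁻¹ *
      (s * (∫ φ in (0 : ℝ)..π, max (g * cos φ - c) 0) +
        (1 - s) * ∫ φ in (0 : ℝ)..π, max (g' * cos φ - c) 0) := by gcongr
    _ = _ := by ring

theorem jj_mono {g g' : ℝ} (h0 : 0 ≤ g) (h : g ≤ g') (c : ℝ) : jj g c ≤ jj g' c := by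
  rcases eq_or_lt_of_le (h0.trans h) with h1 | h1
  · have : g = g' := le_antisymm h (by linarith)
    rw [this]
  · have e : g = ((g + g') / (2 * g')) * g' + (1 - (g + g') / (2 * g')) * (-g') := by
      field_simp
      ring
    have h2 := jj_convex_g c g' (-g') ((g + g') / (2 * g')) (by positivity)
      (by rw [div_le_one (by positivity)]; linarith)
    rw [← e, jj_neg] at h2
    linarith

theorem jj_convex (g : ℝ) (c c' s : ℝ) (hs0 : 0 ≤ s) (hs1 : s ≤ 1) :
    jj g (s * c + (1 - s) * c') ≤ s * jj g c + (1 - s) * jj g c' := by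
  unfold jj
  have h : ∫ φ in (0 : ℝ)..π, max (g * cos φ - (s * c + (1 - s) * c')) 0 ≤
      ∫ φ in (0 : ℝ)..π, (s * max (g * cos φ - c) 0 + (1 - s) * max (g * cos φ - c') 0) := by
    apply intervalIntegral.integral_mono_on pi_pos.le ((cont_max _ _).intervalIntegrable _ _)
    · apply Continuous.intervalIntegrable
      fun_prop
    · intro φ _
      apply max_le
      · have h1 := le_max_left (g * cos φ - c) 0
        have h2 := le_max_left (g * cos φ - c') 0
        nlinarith
      · have h1 := le_max_right (g * cos φ - c) 0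
        have h2 := le_max_right (g * cos φ - c') 0
        have : 0 ≤ 1 - s := by linarith
        positivity
  have hi : ∀ (r a b : ℝ), IntervalIntegrable (fun φ => r * max (a * cos φ - b) 0) volume 0 π :=
    fun r a b => (continuous_const.mul (cont_max a b)).intervalIntegrable _ _
  rw [intervalIntegral.integral_add (hi s g c) (hi (1 - s) g c'),
    intervalIntegral.integral_const_mul, intervalIntegral.integral_const_mul] at h
  have hp := inv_pos.2 pi_pos
  calc π⁻¹ * ∫ φ in (0 : ℝ)..π, max (g * cos φ - (s * c + (1 - s) * c')) 0 ≤ π⁻¹ *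
      (s * (∫ φ in (0 : ℝ)..π, max (g * cos φ - c) 0) +
        (1 - s) * ∫ φ in (0 : ℝ)..π, max (g * cos φ - c') 0) := by gcongr
    _ = _ := by ring

theorem jj_ge {g : ℝ} (hg : 0 ≤ g) (c : ℝ) : max (-c) 0 ≤ jj g c := by
  rw [← jj_zero]
  exact jj_mono le_rfl hg c

theorem jj_of_ge {g c : ℝ} (hg : 0 ≤ g) (h : g ≤ c) : jj g c = 0 := by
  unfold jj
  have e : ∀ φ : ℝ, max (g * cos φ - c) 0 = 0 := by
    intro φ
    apply max_eq_right
    nlinarith [cos_le_one φ]
  simp [e]

theorem integral_gcos (g c a b : ℝ) :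
    ∫ φ in a..b, (g * cos φ - c) = g * (sin b - sin a) - c * (b - a) := by
  have h1 : IntervalIntegrable (fun φ => g * cos φ) volume a b :=
    (continuous_const.mul continuous_cos).intervalIntegrable _ _
  have h2 : IntervalIntegrable (fun _ : ℝ => c) volume a b := continuous_const.intervalIntegrable _ _
  rw [intervalIntegral.integral_sub h1 h2, intervalIntegral.integral_const_mul, integral_cos,
    intervalIntegral.integral_const, smul_eq_mul]
  ring

theorem jj_of_le {g c : ℝ} (hg : 0 ≤ g) (h : c ≤ -g) : jj g c = -c := by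
  unfold jj
  have e : ∀ φ : ℝ, max (g * cos φ - c) 0 = g * cos φ - c := by
    intro φ
    apply max_eq_left
    nlinarith [neg_one_le_cos φ]
  simp only [e]
  rw [integral_gcos, sin_pi, sin_zero]
  field_simp
  ring

theorem sqrt_eq_of {g c : ℝ} (hg : 0 < g) : √(g ^ 2 - c ^ 2) = g * sin (arccos (c / g)) := by
  rw [sin_arccos]
  have : g ^ 2 - c ^ 2 = g ^ 2 * (1 - (c / g) ^ 2) := by field_simp
  rw [this, sqrt_mul (sq_nonneg g), sqrt_sq hg.le]

theorem jj_eq {g : ℝ} (hg : 0 < g) (c : ℝ) :
    jj g c = π⁻¹ * √(g ^ 2 - c ^ 2) - c * pp g c := by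
  rcases le_or_gt g c with h1 | h1
  · rw [jj_of_ge hg.le h1, pp, arccos_of_one_le ((one_le_div hg).2 h1), sqrt_eq_zero_of_nonpos]
    · ring
    · nlinarith
  rcases le_or_gt c (-g) with h2 | h2
  · rw [jj_of_le hg.le h2, pp, arccos_of_le_neg_one (by rw [div_le_iff₀ hg]; linarith),
      sqrt_eq_zero_of_nonpos (by nlinarith)]
    field_simp
    ring
  unfold jj pp
  have hc1 : c / g ≤ 1 := by rw [div_le_one hg]; exact h1.le
  have hc2 : -1 ≤ c / g := by rw [le_div_iff₀ hg]; linarith
  have hα0 := arccos_nonneg (c / g)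
  have hα1 := arccos_le_pi (c / g)
  have hcα : g * cos (arccos (c / g)) = c := by rw [cos_arccos hc2 hc1]; field_simp
  have key : ∫ φ in (0 : ℝ)..π, max (g * cos φ - c) 0 =
      √(g ^ 2 - c ^ 2) - c * arccos (c / g) := by
    rw [sqrt_eq_of hg]
    set α := arccos (c / g) with hα
    rw [← intervalIntegral.integral_add_adjacent_intervals (b := α)
      ((cont_max g c).intervalIntegrable _ _) ((cont_max g c).intervalIntegrable _ _)]
    have e1 : ∫ φ in (0 : ℝ)..α, max (g * cos φ - c) 0 = ∫ φ in (0 : ℝ)..α, (g * cos φ - c) := by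
      apply intervalIntegral.integral_congr
      intro φ hφ
      rw [uIcc_of_le hα0] at hφ
      apply max_eq_left
      have h3 : cos α ≤ cos φ := cos_le_cos_of_nonneg_of_le_pi hφ.1 hα1 hφ.2
      nlinarith
    have e2 : ∫ φ in α..π, max (g * cos φ - c) 0 = 0 := by
      have e3 : ∫ φ in α..π, max (g * cos φ - c) 0 = ∫ _ in α..π, (0 : ℝ) := by
        apply intervalIntegral.integral_congr
        intro φ hφ
        rw [uIcc_of_le hα1] at hφ
        apply max_eq_right
        have h3 : cos φ ≤ cos α := cos_le_cos_of_nonneg_of_le_pi hα0 hφ.2 hφ.1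
        nlinarith
      rw [e3, intervalIntegral.integral_zero]
    rw [e1, e2, add_zero, integral_gcos, sin_zero]
    ring
  rw [key]
  ring

theorem pp_nonneg (g c : ℝ) : 0 ≤ pp g c := by
  unfold pp
  have := arccos_nonneg (c / g)
  have := pi_pos
  positivity

theorem pp_le_one (g c : ℝ) : pp g c ≤ 1 := by
  unfold pp
  rw [inv_mul_le_iff₀ pi_pos, mul_one]
  exact arccos_le_pi _

theorem pp_continuous (g : ℝ) : Continuous (pp g) := by
  unfold pp
  exact continuous_const.mul (continuous_arccos.comp (continuous_id.div_const g))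

theorem ww_nonneg (g c : ℝ) : 0 ≤ ww g c := by
  unfold ww
  have := pi_pos
  positivity

theorem hasDerivAt_pp {g c : ℝ} (hg : 0 < g) (h1 : c ≠ g) (h2 : c ≠ -g) :
    HasDerivAt (pp g) (-ww g c) c := by
  have h1' : c / g ≠ 1 := fun h => h1 (by rw [div_eq_one_iff_eq hg.ne'] at h; exact h)
  have h2' : c / g ≠ -1 := fun h => h2 (by
    rw [div_eq_iff hg.ne'] at h; linarith)
  have h3 := (hasDerivAt_arccos h2' h1').comp c ((hasDerivAt_id c).div_const g)
  have h4 := h3.const_mul π⁻¹
  refine h4.congr_deriv ?_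
  unfold ww
  have e : √(g ^ 2 - c ^ 2) = g * √(1 - (c / g) ^ 2) := by
    have : g ^ 2 - c ^ 2 = g ^ 2 * (1 - (c / g) ^ 2) := by field_simp
    rw [this, sqrt_mul (sq_nonneg g), sqrt_sq hg.le]
  rw [e, mul_inv]
  field_simp

theorem ww_intervalIntegrable {g : ℝ} (hg : 0 < g) (a b : ℝ) :
    IntervalIntegrable (ww g) volume a b := by
  have h : ∀ a b : ℝ, a ≤ b → (∀ x ∈ Ioo a b, x ≠ g ∧ x ≠ -g) →
      IntervalIntegrable (ww g) volume a b := by
    intro a b hab hx
    have := intervalIntegrable_deriv_of_nonneg (g := fun x => -pp g x) (g' := ww g) (a := a)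
      (b := b) ((pp_continuous g).neg.continuousOn)
      (fun x hx' => by
        rw [min_eq_left hab, max_eq_right hab] at hx'
        have := (hasDerivAt_pp hg (hx x hx').1 (hx x hx').2).neg
        rwa [neg_neg] at this)
      (fun x _ => ww_nonneg g x)
    exact this
  -- a large interval
  have hbig : ∀ R : ℝ, g < R → IntervalIntegrable (ww g) volume (-R) R := by
    intro R hR
    have i1 := h (-R) (-g) (by linarith) (fun x hx => ⟨by linarith [hx.2], by linarith [hx.2]⟩)
    have i2 := h (-g) g (by linarith) (fun x hx => ⟨by linarith [hx.2], by linarith [hx.1]⟩)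
    have i3 := h g R hR.le (fun x hx => ⟨by linarith [hx.1], by linarith [hx.1]⟩)
    exact (i1.trans i2).trans i3
  set R := max (|a| + |b|) g + 1 with hR
  have hRg : g < R := by have := le_max_right (|a| + |b|) g; linarith
  have hRa : |a| + |b| < R := by have := le_max_left (|a| + |b|) g; linarith
  refine (hbig R hRg).mono_set ?_
  have ha := abs_le.1 (le_refl |a|)
  have hb := abs_le.1 (le_refl |b|)
  have ha0 := abs_nonneg a
  have hb0 := abs_nonneg b
  rw [uIcc_of_le (by linarith : -R ≤ R)]
  apply uIcc_subset_Icc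
  · constructor <;> linarith [ha.1, ha.2]
  · constructor <;> linarith [hb.1, hb.2]

theorem integral_ww {g : ℝ} (hg : 0 < g) (a b : ℝ) : ∫ x in a..b, ww g x = pp g a - pp g b := by
  have h := MeasureTheory.integral_eq_of_hasDerivAt_off_countable (fun x => -pp g x) (ww g)
    (a := a) (b := b) (s := {g, -g}) (Set.Countable.insert _ (Set.countable_singleton _))
    ((pp_continuous g).neg.continuousOn)
    (fun x hx => by
      have hx2 := hx.2
      simp only [mem_insert_iff, mem_singleton_iff, not_or] at hx2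
      have := (hasDerivAt_pp hg hx2.1 hx2.2).neg
      rwa [neg_neg] at this)
    (ww_intervalIntegrable hg a b)
  rw [h]
  ring

theorem integral_pp {g : ℝ} (hg : 0 < g) (a b : ℝ) : ∫ x in a..b, pp g x = jj g a - jj g b := by
  have hc : Continuous (fun x => -jj g x) :=
    (jj_continuous.comp (continuous_const.prodMk continuous_id)).neg
  have h := MeasureTheory.integral_eq_of_hasDerivAt_off_countable (fun x => -jj g x) (pp g)
    (a := a) (b := b) (s := {g, -g}) (Set.Countable.insert _ (Set.countable_singleton _))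
    hc.continuousOn
    (fun x hx => by
      have hx2 := hx.2
      simp only [mem_insert_iff, mem_singleton_iff, not_or] at hx2
      have hp := hasDerivAt_pp hg hx2.1 hx2.2
      have hne : g ^ 2 - x ^ 2 ≠ 0 := by
        intro h0
        have : (x - g) * (x + g) = 0 := by nlinarith
        rcases mul_eq_zero.1 this with h' | h'
        · exact hx2.1 (by linarith)
        · exact hx2.2 (by linarith)
      have h1 : HasDerivAt (fun x : ℝ => g ^ 2 - x ^ 2) (-(2 * x)) x := by
        have := ((hasDerivAt_id x).pow 2).const_sub (g ^ 2)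
        simpa using this
      have h2 := (h1.sqrt hne).const_mul π⁻¹
      have h3 := (hasDerivAt_id x).mul hp
      have h4 := (h2.sub h3).neg
      have e : (fun x => -jj g x) = -((fun y => π⁻¹ * √(g ^ 2 - y ^ 2)) - id * pp g) := by
        funext y
        simp [jj_eq hg y]
      rw [e]
      refine h4.congr_deriv ?_
      unfold ww
      simp only [id, one_mul]
      have : √(g ^ 2 - x ^ 2) * (√(g ^ 2 - x ^ 2))⁻¹ = 1 ∨ √(g ^ 2 - x ^ 2) = 0 := by
        by_cases h0 : √(g ^ 2 - x ^ 2) = 0
        · exact Or.inr h0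
        · exact Or.inl (mul_inv_cancel₀ h0)
      rw [div_eq_mul_inv, mul_inv]
      ring)
    ((pp_continuous g).intervalIntegrable _ _)
  rw [h]
  ring

theorem hasDerivAt_jj {g : ℝ} (hg : 0 < g) (c : ℝ) : HasDerivAt (jj g) (-pp g c) c := by
  have h1 : HasDerivAt (fun x => ∫ y in (0 : ℝ)..x, pp g y) (pp g c) c :=
    intervalIntegral.integral_hasDerivAt_right ((pp_continuous g).intervalIntegrable _ _)
      ((pp_continuous g).stronglyMeasurableAtFilter _ _) (pp_continuous g).continuousAt
  have e : (fun x => ∫ y in (0 : ℝ)..x, pp g y) = fun x => jj g 0 - jj g x := by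
    funext x; exact integral_pp hg 0 x
  rw [e] at h1
  have h2 := (h1.const_sub (jj g 0))
  have e2 : (fun x => jj g 0 - (jj g 0 - jj g x)) = jj g := by funext x; ring
  rw [e2] at h2
  exact h2

end Pool.Agent.Helper94.FU
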