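import Pool.Agent.Helper73.FU.Stmts

set_option autoImplicit false

open MeasureTheory Set Metric Real Filter Topology
open scoped RealInnerProductSpace ENNReal
open Pool.Agent.Helper16.Buoy (E)
open Pool.Agent.Helper73.FU

namespace Pool.Agent.Helper94.FU

theorem eq_zero_of_le_sq {d D : ℝ} (h : ∀ᶠ u in 𝓝 (0 : ℝ), d * u ≤ D * u ^ 2) : d = 0 := by
  have h1 : IsLocalMin (fun u : ℝ => D * u ^ 2 - d * u) 0 := by
    filter_upwards [h] with u hu
    simp only [ne_eq, OfNat.ofNat_ne_zero, not_false_eq_true, zero_pow, mul_zero, sub_zero]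
    linarith
  have h2 : HasDerivAt (fun u : ℝ => D * u ^ 2 - d * u) (D * (2 * 0) - d * 1) 0 := by
    have h3 : HasDerivAt (fun u : ℝ => u ^ 2) (2 * 0) (0 : ℝ) := by
      simpa using hasDerivAt_pow 2 (0 : ℝ)
    exact (h3.const_mul D).sub ((hasDerivAt_id (0 : ℝ)).const_mul d)
  have h3 := h1.hasDerivAt_eq_zero h2
  linarith

theorem qq_mul {n : ℕ} (v b : E n) :
    qq v (b + (inner ℝ v b : ℝ) • v) = ‖b‖ ^ 2 + (inner ℝ v b : ℝ) ^ 2 := by
  unfold qq
  have h1 : ‖b + (inner ℝ v b : ℝ) • v‖ ^ 2 =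
      ‖b‖ ^ 2 + 2 * (inner ℝ v b : ℝ) ^ 2 + (inner ℝ v b : ℝ) ^ 2 * ‖v‖ ^ 2 := by
    rw [@norm_add_sq_real, inner_smul_right, norm_smul, Real.norm_eq_abs, mul_pow, sq_abs,
      real_inner_comm b v]
    ring
  have h2 : (inner ℝ v (b + (inner ℝ v b : ℝ) • v) : ℝ) = (inner ℝ v b : ℝ) * (1 + ‖v‖ ^ 2) := by
    rw [inner_add_right, inner_smul_right, real_inner_self_eq_norm_sq]
    ring
  rw [h1, h2]
  have h3 : (1 + ‖v‖ ^ 2) ≠ 0 := by positivity
  field_simp
  ring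

theorem inner_exp {n : ℕ} (v a p b : E n) (h u : ℝ) :
    (inner ℝ (v + h • a) (p + u • b) : ℝ) = inner ℝ v p + u * inner ℝ v b + h * inner ℝ a p +
      h * u * inner ℝ a b := by
  rw [inner_add_left, inner_add_right, inner_add_right, inner_smul_left, inner_smul_left,
    inner_smul_right, inner_smul_right]
  simp only [conj_trivial]
  ring

theorem inner_exp' {n : ℕ} (v a p b : E n) (h u : ℝ) :
    (inner ℝ (v - h • a) (p + (-u) • b) : ℝ) = inner ℝ v p - u * inner ℝ v b - h * inner ℝ a p +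
      h * u * inner ℝ a b := by
  have h1 := inner_exp v a p b (-h) (-u)
  rw [neg_smul, ← sub_eq_add_neg] at h1
  rw [h1]
  ring

/-- The touching argument. -/
theorem touch {n : ℕ} {U : Set (E n)} {k Z : E n → ℝ} {lam s ε β C : ℝ} {v p b : E n}
    (hlam : 0 < lam) (hs0 : 0 < s) (hε0 : 0 < ε) (hC0 : 0 < C)
    (hC : C = ‖b‖ ^ 2 + β ^ 2 - ε / 2)
    (hZle : ∀ y ∈ U, ∀ v, lam * (Z y + inner ℝ v y) ≤ k v)
    (hkv : k v = lam * (inner ℝ v p + s))
    (sd : ∀ (a : E n) (ε : ℝ), 0 < ε → ∃ η : ℝ, 0 < η ∧ ∀ h : ℝ, |h| ≤ η →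
      k (v + h • a) + k (v - h • a) - 2 * k v ≤ h ^ 2 * (lam * s * qq v a + ε))
    (hA : ∀ᶠ u in 𝓝 (0 : ℝ), p + u • b ∈ U ∧ s - β * u - C * u ^ 2 / (2 * s) ≤ Z (p + u • b)) :
    False := by
  -- first order condition
  have hβη : inner ℝ v b - β = 0 := by
    apply eq_zero_of_le_sq (D := C / (2 * s))
    filter_upwards [hA] with u hu
    have h1 := hZle _ hu.1 v
    rw [hkv] at h1
    have h2 := le_of_mul_le_mul_left h1 hlam
    rw [inner_add_right, inner_smul_right] at h2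
    have h3 := hu.2
    have h4 : C / (2 * s) * u ^ 2 = C * u ^ 2 / (2 * s) := by ring
    rw [h4]
    linarith
  have hβe : β = inner ℝ v b := by linarith
  set N : ℝ := ‖b‖ ^ 2 + (inner ℝ v b : ℝ) ^ 2 with hN
  have hNC : C = N - ε / 2 := by rw [hC, hN, hβe]
  have hN0 : 0 < N := by linarith
  set a : E n := b + (inner ℝ v b : ℝ) • v with ha'
  have hab : (inner ℝ a b : ℝ) = N := by
    rw [ha', inner_add_left, inner_smul_left, real_inner_self_eq_norm_sq, hN]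
    simp only [conj_trivial]
    ring
  have hCN : N < N ^ 2 / C := by
    rw [lt_div_iff₀ hC0, hNC]
    have e : N * (N - ε / 2) = N ^ 2 - N * ε / 2 := by ring
    have e2 := mul_pos hN0 hε0
    rw [e]
    linarith
  obtain ⟨η, hη, hηb⟩ := sd a (lam * s * (N ^ 2 / C - N) / 2)
    (by have : 0 < N ^ 2 / C - N := by linarith
        positivity)
  rw [ha', qq_mul, ← hN] at hηb
  rw [← ha'] at hηb
  -- choose h
  have hlim : Tendsto (fun h : ℝ => s * N / C * h) (𝓝 0) (𝓝 0) := by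
    have : ContinuousAt (fun h : ℝ => s * N / C * h) 0 := by fun_prop
    simpa [ContinuousAt] using this
  have hlim2 : Tendsto (fun h : ℝ => -(s * N / C * h)) (𝓝 0) (𝓝 0) := by
    simpa using hlim.neg
  have e1 := hlim.eventually hA
  have e2 := hlim2.eventually hA
  have e3 : ∀ᶠ h in 𝓝 (0 : ℝ), |h| ≤ η := by
    have : ∀ᶠ h in 𝓝 (0 : ℝ), |h| < η := by
      have h1 : ContinuousAt (fun h : ℝ => |h|) 0 := continuous_abs.continuousAt
      exact h1.eventually (gt_mem_nhds (by simpa using hη))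
    filter_upwards [this] with h hh using hh.le
  have e4 : ∀ᶠ h in 𝓝[>] (0 : ℝ), 0 < h := eventually_mem_nhdsWithin
  obtain ⟨h, ⟨⟨⟨h1, h2⟩, h3⟩, h4⟩⟩ := ((((e1.and e2).and e3).filter_mono nhdsWithin_le_nhds).and e4).exists
  set u : ℝ := s * N / C * h with hu
  have k1 := hZle _ h1.1 (v + h • a)
  have k2 := hZle _ h2.1 (v - h • a)
  have k3 := hηb h h3
  rw [hkv] at k3
  rw [inner_exp, hab] at k1
  rw [inner_exp', hab] at k2
  have z1 := h1.2
  have z2 := h2.2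
  have m1 : lam * (s - β * u - C * u ^ 2 / (2 * s) +
      (inner ℝ v p + u * inner ℝ v b + h * inner ℝ a p + h * u * N)) ≤ k (v + h • a) :=
    le_trans (mul_le_mul_of_nonneg_left (by linarith) hlam.le) k1
  have m2 : lam * (s + β * u - C * u ^ 2 / (2 * s) +
      (inner ℝ v p - u * inner ℝ v b - h * inner ℝ a p + h * u * N)) ≤ k (v - h • a) := by
    refine le_trans (mul_le_mul_of_nonneg_left ?_ hlam.le) k2
    have e : C * (-u) ^ 2 / (2 * s) = C * u ^ 2 / (2 * s) := by ring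
    rw [e] at z2
    linarith
  have m3 : lam * (2 * (h * u * N) - C * u ^ 2 / s) ≤
      h ^ 2 * (lam * s * N + lam * s * (N ^ 2 / C - N) / 2) := by
    have e : C * u ^ 2 / s = 2 * (C * u ^ 2 / (2 * s)) := by field_simp
    rw [e]
    have e5 := add_le_add m1 m2
    have e6 : lam * (s - β * u - C * u ^ 2 / (2 * s) +
      (inner ℝ v p + u * inner ℝ v b + h * inner ℝ a p + h * u * N)) +
      lam * (s + β * u - C * u ^ 2 / (2 * s) +
      (inner ℝ v p - u * inner ℝ v b - h * inner ℝ a p + h * u * N)) =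
      lam * (2 * (h * u * N) - 2 * (C * u ^ 2 / (2 * s))) + 2 * (lam * (inner ℝ v p + s)) := by ring
    rw [e6] at e5
    linarith
  have m4 : lam * (2 * (h * u * N) - C * u ^ 2 / s) = h ^ 2 * (lam * s * (N ^ 2 / C)) := by
    rw [hu]
    field_simp
    ring
  rw [m4] at m3
  have hh2 : 0 < h ^ 2 := by positivity
  have m5 := le_of_mul_le_mul_left m3 hh2
  have m6 : 0 < lam * s * (N ^ 2 / C - N) := by
    have : 0 < N ^ 2 / C - N := by linarith
    positivity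
  have m7 : lam * s * (N ^ 2 / C) = lam * s * N + lam * s * (N ^ 2 / C - N) := by ring
  rw [m7] at m5
  linarith

/-- Abstract form of the key lemma. -/
theorem cn_core {n : ℕ} {U : Set (E n)} (hU : IsOpen U) (hUc : Convex ℝ U)
    {k : E n → ℝ} {Y : E n → E n} {x : E n → ℝ} {lam : ℝ} (hlam : 0 < lam)
    (Ysurj : ∀ y ∈ U, ∃ v, Y v = y) (xpos : ∀ v, 0 < x v)
    (val : ∀ v, k v = lam * (inner ℝ v (Y v) + x v))
    (grad : ∀ v v', k v + lam * inner ℝ (v' - v) (Y v) ≤ k v')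
    (sd : ∀ (v a : E n) (ε : ℝ), 0 < ε → ∃ η : ℝ, 0 < η ∧ ∀ h : ℝ, |h| ≤ η →
      k (v + h • a) + k (v - h • a) - 2 * k v ≤ h ^ 2 * (lam * x v * qq v a + ε)) :
    ∃ Z : E n → ℝ, (∀ v, Z (Y v) = x v) ∧ ConcaveOn ℝ U (fun y => Z y ^ 2 + ‖y‖ ^ 2) := by
  have hlow : ∀ v v', x v ≤ k v' / lam - inner ℝ v' (Y v) := by
    intro v v'
    have h1 := grad v v'
    rw [val v, inner_sub_left] at h1
    rw [le_sub_iff_add_le, le_div_iff₀ hlam]
    nlinarith
  set Z : E n → ℝ := fun y => ⨅ v, (k v / lam - inner ℝ v y) with hZ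
  have hbdd : ∀ v, BddBelow (range fun v' => k v' / lam - inner ℝ v' (Y v)) := by
    intro v
    refine ⟨x v, ?_⟩
    rintro _ ⟨v', rfl⟩
    exact hlow v v'
  have hZY : ∀ v, Z (Y v) = x v := by
    intro v
    apply le_antisymm
    · refine (ciInf_le (hbdd v) v).trans ?_
      rw [val v, mul_div_assoc, mul_comm, div_mul_cancel₀ _ hlam.ne']
      linarith
    · exact le_ciInf fun v' => hlow v v'
  have hZle : ∀ y ∈ U, ∀ v, lam * (Z y + inner ℝ v y) ≤ k v := by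
    intro y hy v
    obtain ⟨w, rfl⟩ := Ysurj y hy
    have h1 := ciInf_le (hbdd w) v
    have h2 : Z (Y w) ≤ k v / lam - inner ℝ v (Y w) := h1
    rw [le_sub_iff_add_le, le_div_iff₀ hlam] at h2
    linarith
  have hZpos : ∀ y ∈ U, 0 < Z y := by
    intro y hy
    obtain ⟨w, rfl⟩ := Ysurj y hy
    rw [hZY]
    exact xpos w
  have hZatt : ∀ y ∈ U, ∃ v, k v = lam * (Z y + inner ℝ v y) := by
    intro y hy
    obtain ⟨w, rfl⟩ := Ysurj y hy
    exact ⟨w, by rw [hZY, val w, add_comm]⟩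
  have hZconc : ConcaveOn ℝ U Z := by
    refine ⟨hUc, fun y1 hy1 y2 hy2 a b ha hb hab => ?_⟩
    obtain ⟨v, hv⟩ := hZatt _ (hUc hy1 hy2 ha hb hab)
    have h1 := hZle y1 hy1 v
    have h2 := hZle y2 hy2 v
    rw [hv, inner_add_right, inner_smul_right, inner_smul_right] at h1 h2
    have h1' := le_of_mul_le_mul_left h1 hlam
    have h2' := le_of_mul_le_mul_left h2 hlam
    simp only [smul_eq_mul]
    have h3 := mul_le_mul_of_nonneg_left h1' ha
    have h4 := mul_le_mul_of_nonneg_left h2' hb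
    have h5 : a * (Z (a • y1 + b • y2) + (a * inner ℝ v y1 + b * inner ℝ v y2)) +
        b * (Z (a • y1 + b • y2) + (a * inner ℝ v y1 + b * inner ℝ v y2)) =
        Z (a • y1 + b • y2) + (a * inner ℝ v y1 + b * inner ℝ v y2) := by
      rw [← add_mul, hab, one_mul]
    linarith
  have hZcont : ContinuousOn Z U := hZconc.continuousOn hU
  refine ⟨Z, hZY, hUc, fun y1 hy1 y2 hy2 a1 a2 ha1 ha2 ha => ?_⟩
  simp only [smul_eq_mul]
  by_contra hcon
  push Not at hcon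
  -- the line
  set b : E n := y2 - y1 with hb
  have hmem : ∀ t ∈ Icc (0 : ℝ) 1, y1 + t • b ∈ U := by
    intro t ht
    have : y1 + t • b = (1 - t) • y1 + t • y2 := by rw [hb]; module
    rw [this]
    exact hUc hy1 hy2 (by linarith [ht.2]) ht.1 (by ring)
  have ha2' : a2 ∈ Icc (0 : ℝ) 1 := ⟨ha2, by linarith⟩
  have hpt : a1 • y1 + a2 • y2 = y1 + a2 • b := by
    have : a1 = 1 - a2 := by linarith
    rw [this, hb]; module
  rw [hpt] at hcon
  set G1 : ℝ := Z y1 ^ 2 + ‖y1‖ ^ 2 with hG1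
  set G2 : ℝ := Z y2 ^ 2 + ‖y2‖ ^ 2 with hG2
  set f0 : ℝ → ℝ := fun t => Z (y1 + t • b) ^ 2 + ‖y1 + t • b‖ ^ 2 - ((1 - t) * G1 + t * G2) with hf0
  have hf00 : f0 0 = 0 := by simp only [hf0, hG1]; simp
  have hf01 : f0 1 = 0 := by
    simp only [hf0, hG2]
    have : y1 + (1 : ℝ) • b = y2 := by rw [hb]; module
    rw [this]; ring
  have hneg : f0 a2 < 0 := by
    simp only [hf0]
    have : a1 = 1 - a2 := by linarith
    rw [this] at hcon
    linarith
  have hbpos : 0 < ‖b‖ := by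
    rw [norm_pos_iff]
    intro h0
    have h1 : f0 a2 = 0 := by
      have e : y2 = y1 := by rw [← sub_eq_zero, ← hb, h0]
      simp only [hf0, h0, hG1, hG2, e]
      simp
      ring
    linarith
  set ε : ℝ := min (-(f0 a2) / 2) (‖b‖ ^ 2) with hε
  have hε0 : 0 < ε := by
    apply lt_min <;> [linarith; positivity]
  have hεb : ε ≤ ‖b‖ ^ 2 := min_le_right _ _
  set f : ℝ → ℝ := fun t => f0 t + ε * (t * (1 - t)) with hf
  have hfa : f a2 < 0 := by
    have h1 : ε * (a2 * (1 - a2)) ≤ ε := by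
      have : a2 * (1 - a2) ≤ 1 := by nlinarith [ha2'.2]
      nlinarith
    have h2 : ε ≤ -(f0 a2) / 2 := min_le_left _ _
    simp only [hf]
    linarith
  have hfc : ContinuousOn f (Icc 0 1) := by
    have h1 : ContinuousOn (fun t : ℝ => Z (y1 + t • b)) (Icc 0 1) :=
      hZcont.comp (by fun_prop) hmem
    simp only [hf, hf0]
    apply ContinuousOn.add
    · apply ContinuousOn.sub
      · exact (h1.pow 2).add (by fun_prop)
      · fun_prop
    · fun_prop
  obtain ⟨t1, ht1, hmin⟩ := isCompact_Icc.exists_isMinOn (nonempty_Icc.2 zero_le_one) hfc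
  have hft1 : f t1 < 0 := lt_of_le_of_lt (hmin ha2') hfa
  have ht10 : t1 ≠ 0 := by
    rintro rfl
    simp only [hf, hf00] at hft1
    simp at hft1
  have ht11 : t1 ≠ 1 := by
    rintro rfl
    simp only [hf, hf01] at hft1
    simp at hft1
  have ht1' : t1 ∈ Ioo (0 : ℝ) 1 :=
    ⟨lt_of_le_of_ne ht1.1 (Ne.symm ht10), lt_of_le_of_ne ht1.2 ht11⟩
  set p : E n := y1 + t1 • b with hp
  have hpU : p ∈ U := hmem t1 ht1
  obtain ⟨v, hv⟩ := Ysurj p hpU
  set s : ℝ := x v with hs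
  have hs0 : 0 < s := xpos v
  have hZp : Z p = s := by rw [← hv, hZY]
  have hkv : k v = lam * (inner ℝ v p + s) := by rw [val v, hv]
  -- the touching quadratic
  set β : ℝ := (2 * inner ℝ p b - (G2 - G1) + ε * (1 - 2 * t1)) / (2 * s) with hβ
  have hβs : 2 * s * β = 2 * inner ℝ p b - (G2 - G1) + ε * (1 - 2 * t1) := by
    rw [hβ]; field_simp
  set C : ℝ := ‖b‖ ^ 2 + β ^ 2 - ε / 2 with hC
  have hC0 : 0 < C := by
    rw [hC]
    nlinarith [sq_nonneg β, hbpos]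
  have hin : ∀ᶠ u in 𝓝 (0 : ℝ), t1 + u ∈ Icc (0 : ℝ) 1 := by
    have h1 : Tendsto (fun u : ℝ => t1 + u) (𝓝 0) (𝓝 t1) := by
      have : ContinuousAt (fun u : ℝ => t1 + u) 0 := by fun_prop
      simpa [ContinuousAt] using this
    exact h1.eventually (Icc_mem_nhds ht1'.1 ht1'.2)
  have hsm : ∀ᶠ u in 𝓝 (0 : ℝ), β * C * u / s + C ^ 2 * u ^ 2 / (4 * s ^ 2) < ε / 2 := by
    have h1 : ContinuousAt (fun u : ℝ => β * C * u / s + C ^ 2 * u ^ 2 / (4 * s ^ 2)) 0 := by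
      fun_prop
    apply h1.eventually (gt_mem_nhds _)
    simp
    exact hε0
  have hA : ∀ᶠ u in 𝓝 (0 : ℝ), p + u • b ∈ U ∧ s - β * u - C * u ^ 2 / (2 * s) ≤ Z (p + u • b) := by
    filter_upwards [hin, hsm] with u hu1 hu2
    have hpu : p + u • b = y1 + (t1 + u) • b := by rw [hp]; module
    have hmemu : p + u • b ∈ U := by rw [hpu]; exact hmem _ hu1
    refine ⟨hmemu, ?_⟩
    have h1 : f t1 ≤ f (t1 + u) := hmin hu1
    simp only [hf, hf0] at h1
    rw [← hpu, ← hp, hZp] at h1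
    have h2 : ‖p + u • b‖ ^ 2 = ‖p‖ ^ 2 + 2 * u * inner ℝ p b + u ^ 2 * ‖b‖ ^ 2 := by
      rw [@norm_add_sq_real, inner_smul_right, norm_smul, Real.norm_eq_abs, mul_pow, sq_abs]
      ring
    rw [h2] at h1
    have h3 : s ^ 2 - 2 * s * β * u - (‖b‖ ^ 2 - ε) * u ^ 2 ≤ Z (p + u • b) ^ 2 := by
      rw [hβs]
      nlinarith
    have hZ0 := hZpos _ hmemu
    by_contra hlt
    push Not at hlt
    have h4 : Z (p + u • b) ^ 2 < (s - β * u - C * u ^ 2 / (2 * s)) ^ 2 :=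
      pow_lt_pow_left₀ hlt hZ0.le two_ne_zero
    have h5 : (s - β * u - C * u ^ 2 / (2 * s)) ^ 2 = s ^ 2 - 2 * s * β * u - (C - β ^ 2) * u ^ 2 +
        u ^ 2 * (β * C * u / s + C ^ 2 * u ^ 2 / (4 * s ^ 2)) := by
      field_simp
      ring
    rw [h5] at h4
    have h6 : u ^ 2 * (β * C * u / s + C ^ 2 * u ^ 2 / (4 * s ^ 2)) ≤ u ^ 2 * (ε / 2) :=
      mul_le_mul_of_nonneg_left hu2.le (sq_nonneg u)
    have h7 : (C - β ^ 2) * u ^ 2 = ‖b‖ ^ 2 * u ^ 2 - u ^ 2 * (ε / 2) := by rw [hC]; ring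
    have h8 : (‖b‖ ^ 2 - ε) * u ^ 2 = ‖b‖ ^ 2 * u ^ 2 - 2 * (u ^ 2 * (ε / 2)) := by ring
    rw [h7] at h4
    rw [h8] at h3
    linarith
  exact touch hlam hs0 hε0 hC0 hC hZle hkv (sd v) hA

theorem s_cn : S_cn := by
  intro n K δ lam F τ hcs _ _ hbs hsd
  exact cn_core isOpen_interior hcs.cb.conv.interior hcs.lpos hbs.Ysurj hbs.xpos hbs.val hbs.grad hsd

end Pool.Agent.Helper94.FU
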